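import Mathlib

/-!
# Correlation sequences of bounded mean zero functions

`Corr ψ` : `ψ n = ∫ f · f∘Tⁿ` for an invertible measure preserving system and a bounded mean zero `f`.
Closed under sums, products and nonnegative multiples.
-/

set_option autoImplicit false
open MeasureTheory Filter Topology

namespace Pool.Agent.TH311.Nice

universe u

/-- integer powers of an invertible measure preserving map are measure preserving -/
theorem mp_zpow {X : Type*} [MeasurableSpace X] {μ : Measure X} {T : Equiv.Perm X}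
    (h1 : Measurable T) (h2 : Measurable T.symm) (h : MeasurePreserving T μ μ) (n : ℤ) :
    MeasurePreserving (⇑(T ^ n)) μ μ := by
  let e : X ≃ᵐ X := ⟨T, h1, h2⟩
  have hs : MeasurePreserving T.symm μ μ := MeasurePreserving.symm e h
  obtain ⟨k, rfl | rfl⟩ := n.eq_nat_or_neg
  · rw [zpow_natCast, ← Equiv.Perm.iterate_eq_pow]
    exact h.iterate k
  · rw [zpow_neg, zpow_natCast, ← inv_pow, ← Equiv.Perm.iterate_eq_pow]
    exact hs.iterate k

/-- `ψ` is the autocorrelation sequence of a bounded mean zero function in an invertible system -/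
def Corr (ψ : ℤ → ℝ) : Prop :=
  ∃ (X : Type u) (_ : MeasurableSpace X) (μ : Measure X) (_ : IsProbabilityMeasure μ)
    (T : Equiv.Perm X) (f : X → ℝ), Measurable T ∧ Measurable T.symm ∧ MeasurePreserving T μ μ ∧
    Measurable f ∧ (∃ K : ℝ, ∀ x, |f x| ≤ K) ∧ ∫ x, f x ∂μ = 0 ∧
    ∀ n : ℤ, ∫ x, f x * f ((T ^ n) x) ∂μ = ψ n

theorem Corr.zero : Corr.{u} (fun _ => 0) := by
  refine ⟨PUnit, ⊤, Measure.dirac PUnit.unit, inferInstance, 1, fun _ => 0, measurable_id, measurable_id,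
    MeasurePreserving.id _, measurable_const, ⟨0, by simp⟩, by simp, by simp⟩

theorem Corr.smul {ψ : ℤ → ℝ} (h : Corr.{u} ψ) {c : ℝ} (hc : 0 ≤ c) : Corr.{u} (fun n => c * ψ n) := by
  obtain ⟨X, _, μ, _, T, f, h1, h2, h3, h4, ⟨K, hK⟩, h6, h7⟩ := h
  refine ⟨X, _, μ, inferInstance, T, fun x => √c * f x, h1, h2, h3, h4.const_mul _,
    ⟨√c * K, fun x => ?_⟩, ?_, fun n => ?_⟩
  · rw [abs_mul, abs_of_nonneg (Real.sqrt_nonneg c)]
    exact mul_le_mul_of_nonneg_left (hK x) (Real.sqrt_nonneg c)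
  · rw [integral_const_mul, h6, mul_zero]
  · show _ = c * ψ n
    rw [← h7 n, ← integral_const_mul]
    refine integral_congr_ae (Eventually.of_forall fun x => ?_)
    show √c * f x * (√c * f ((T ^ n) x)) = c * (f x * f ((T ^ n) x))
    have : √c * √c = c := Real.mul_self_sqrt hc
    linear_combination (f x * f ((T ^ n) x)) * this

/-- product permutation -/
def pp {X Y : Type*} (T : Equiv.Perm X) (S : Equiv.Perm Y) : Equiv.Perm (X × Y) := Equiv.prodCongr T S

theorem pp_pow_nat {X Y : Type*} (T : Equiv.Perm X) (S : Equiv.Perm Y) (n : ℕ) :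
    pp T S ^ n = pp (T ^ n) (S ^ n) := by
  induction n with
  | zero => rfl
  | succ n ih => rw [pow_succ, ih, pow_succ, pow_succ]; rfl

theorem pp_pow {X Y : Type*} (T : Equiv.Perm X) (S : Equiv.Perm Y) (n : ℤ) :
    pp T S ^ n = pp (T ^ n) (S ^ n) := by
  obtain ⟨k, rfl | rfl⟩ := n.eq_nat_or_neg
  · simp only [zpow_natCast]; exact pp_pow_nat T S k
  · simp only [zpow_neg, zpow_natCast]
    rw [pp_pow_nat]; rfl

theorem pp_apply {X Y : Type*} (T : Equiv.Perm X) (S : Equiv.Perm Y) (z : X × Y) :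
    pp T S z = (T z.1, S z.2) := rfl

theorem Corr.mul {ψ φ : ℤ → ℝ} (h : Corr.{u} ψ) (h' : Corr.{u} φ) : Corr.{u} (fun n => ψ n * φ n) := by
  obtain ⟨X, _, μ, _, T, f, h1, h2, h3, h4, ⟨K, hK⟩, h6, h7⟩ := h
  obtain ⟨Y, _, ν, _, S, g, g1, g2, g3, g4, ⟨L, hL⟩, g6, g7⟩ := h'
  refine ⟨X × Y, inferInstance, μ.prod ν, inferInstance, pp T S, fun z => f z.1 * g z.2,
    ?_, ?_, h3.prod g3, (h4.comp measurable_fst).mul (g4.comp measurable_snd), ⟨K * L, fun z => ?_⟩, ?_,
    fun n => ?_⟩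
  · exact (h1.comp measurable_fst).prodMk (g1.comp measurable_snd)
  · exact (h2.comp measurable_fst).prodMk (g2.comp measurable_snd)
  · rw [abs_mul]
    exact mul_le_mul (hK _) (hL _) (abs_nonneg _) ((abs_nonneg _).trans (hK z.1))
  · rw [integral_prod_mul, h6, zero_mul]
  · show _ = ψ n * φ n
    rw [← h7 n, ← g7 n, ← integral_prod_mul]
    refine integral_congr_ae (Eventually.of_forall fun z => ?_)
    show f z.1 * g z.2 * (f ((pp T S ^ n) z).1 * g ((pp T S ^ n) z).2) = _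
    rw [pp_pow, pp_apply]
    ring

theorem int_bdd {X : Type*} [MeasurableSpace X] {μ : Measure X} [IsProbabilityMeasure μ] {f : X → ℝ}
    (hf : Measurable f) {K : ℝ} (hK : ∀ x, |f x| ≤ K) : Integrable f μ :=
  Integrable.mono' (g := fun _ => K) (integrable_const _) hf.aestronglyMeasurable
    (Eventually.of_forall fun x => by rw [Real.norm_eq_abs]; exact hK x)

theorem int_corr {X : Type*} [MeasurableSpace X] {μ : Measure X} [IsProbabilityMeasure μ] {f g : X → ℝ}
    (hf : Measurable f) (hg : Measurable g) {K L : ℝ} (hK : ∀ x, |f x| ≤ K) (hL : ∀ x, |g x| ≤ L) :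
    Integrable (fun x => f x * g x) μ := by
  refine int_bdd (K := K * L) (hf.mul hg) fun x => ?_
  rw [abs_mul]
  exact mul_le_mul (hK _) (hL _) (abs_nonneg _) ((abs_nonneg _).trans (hK x))

theorem Corr.add {ψ φ : ℤ → ℝ} (h : Corr.{u} ψ) (h' : Corr.{u} φ) : Corr.{u} (fun n => ψ n + φ n) := by
  obtain ⟨X, _, μ, _, T, f, h1, h2, h3, h4, ⟨K, hK⟩, h6, h7⟩ := h
  obtain ⟨Y, _, ν, _, S, g, g1, g2, g3, g4, ⟨L, hL⟩, g6, g7⟩ := h'
  have hfi : Integrable f μ := int_bdd h4 hK
  have hgi : Integrable g ν := int_bdd g4 hL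
  refine ⟨X × Y, inferInstance, μ.prod ν, inferInstance, pp T S, fun z => f z.1 + g z.2,
    ?_, ?_, h3.prod g3, (h4.comp measurable_fst).add (g4.comp measurable_snd), ⟨K + L, fun z => ?_⟩, ?_,
    fun n => ?_⟩
  · exact (h1.comp measurable_fst).prodMk (g1.comp measurable_snd)
  · exact (h2.comp measurable_fst).prodMk (g2.comp measurable_snd)
  · exact (abs_add_le _ _).trans (add_le_add (hK _) (hL _))
  · have i1 : Integrable (fun z : X × Y => f z.1) (μ.prod ν) := hfi.comp_fst ν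
    have i2 : Integrable (fun z : X × Y => g z.2) (μ.prod ν) := hgi.comp_snd μ
    rw [integral_add i1 i2, integral_fun_fst, integral_fun_snd, h6, g6]
    simp
  · have hTn := mp_zpow h1 h2 h3 n
    have hSn := mp_zpow g1 g2 g3 n
    have hfn : Measurable fun x => f ((T ^ n) x) := h4.comp hTn.measurable
    have hgn : Measurable fun x => g ((S ^ n) x) := g4.comp hSn.measurable
    have e : ∀ z : X × Y, (f z.1 + g z.2) * (f ((pp T S ^ n) z).1 + g ((pp T S ^ n) z).2)
        = (f z.1 * f ((T ^ n) z.1) + g z.2 * g ((S ^ n) z.2))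
          + (f z.1 * g ((S ^ n) z.2) + f ((T ^ n) z.1) * g z.2) := by
      intro z
      rw [pp_pow, pp_apply]
      ring
    have hffi : Integrable (fun x => f x * f ((T ^ n) x)) μ := int_corr h4 hfn hK (fun x => hK _)
    have hggi : Integrable (fun x => g x * g ((S ^ n) x)) ν := int_corr g4 hgn hL (fun x => hL _)
    have i1 : Integrable (fun z : X × Y => f z.1 * f ((T ^ n) z.1)) (μ.prod ν) := hffi.comp_fst ν
    have i2 : Integrable (fun z : X × Y => g z.2 * g ((S ^ n) z.2)) (μ.prod ν) := hggi.comp_snd μ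
    have i3 : Integrable (fun z : X × Y => f z.1 * g ((S ^ n) z.2)) (μ.prod ν) :=
      hfi.mul_prod (int_bdd hgn (fun x => hL _))
    have i4 : Integrable (fun z : X × Y => f ((T ^ n) z.1) * g z.2) (μ.prod ν) :=
      (int_bdd hfn (fun x => hK _)).mul_prod hgi
    show ∫ z : X × Y, (f z.1 + g z.2) * (f ((pp T S ^ n) z).1 + g ((pp T S ^ n) z).2) ∂μ.prod ν = _
    simp_rw [e]
    have i12 : Integrable (fun z : X × Y => f z.1 * f ((T ^ n) z.1) + g z.2 * g ((S ^ n) z.2)) (μ.prod ν) :=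
      i1.add i2
    have i34 : Integrable (fun z : X × Y => f z.1 * g ((S ^ n) z.2) + f ((T ^ n) z.1) * g z.2) (μ.prod ν) :=
      i3.add i4
    rw [integral_add i12 i34, integral_add i1 i2, integral_add i3 i4,
      integral_prod_mul (fun x => f x) (fun y => g ((S ^ n) y)),
      integral_prod_mul (fun x => f ((T ^ n) x)) (fun y => g y), h6, g6]
    have e1 : ∫ z : X × Y, f z.1 * f ((T ^ n) z.1) ∂μ.prod ν = ψ n := by
      rw [← h7 n]
      have := integral_fun_fst (μ := μ) (ν := ν) (fun x => f x * f ((T ^ n) x))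
      rw [this]; simp
    have e2 : ∫ z : X × Y, g z.2 * g ((S ^ n) z.2) ∂μ.prod ν = φ n := by
      rw [← g7 n]
      have := integral_fun_snd (μ := μ) (ν := ν) (fun x => g x * g ((S ^ n) x))
      rw [this]; simp
    rw [e1, e2]
    ring

theorem Corr.bdd {ψ : ℤ → ℝ} (h : Corr.{u} ψ) : ∃ M : ℝ, 0 < M ∧ ∀ n, |ψ n| ≤ M := by
  obtain ⟨X, _, μ, _, T, f, h1, h2, h3, h4, ⟨K, hK⟩, h6, h7⟩ := h
  refine ⟨K * K + 1, by nlinarith [mul_self_nonneg K], fun n => ?_⟩
  rw [← h7 n, ← Real.norm_eq_abs]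
  have := norm_integral_le_of_norm_le_const (μ := μ) (C := K * K) (f := fun x => f x * f ((T ^ n) x))
    (Eventually.of_forall fun x => by
      rw [Real.norm_eq_abs, abs_mul]
      exact mul_le_mul (hK _) (hK _) (abs_nonneg _) ((abs_nonneg _).trans (hK x)))
  simp only [probReal_univ, mul_one] at this
  linarith

/-- the family `y (1+x)^m` -/
theorem Corr.pw {ψ φ : ℤ → ℝ} (h : Corr.{u} ψ) (h' : Corr.{u} φ) (m : ℕ) :
    Corr.{u} (fun n => φ n * (1 + ψ n) ^ m) := by
  induction m with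
  | zero => simpa using h'
  | succ m ih =>
    have := ih.add (h.mul ih)
    have e : (fun n => φ n * (1 + ψ n) ^ (m + 1))
        = fun n => φ n * (1 + ψ n) ^ m + ψ n * (φ n * (1 + ψ n) ^ m) := by
      funext n; ring
    rw [e]; exact this

/-- odd and even parts of `(1+x)^m` -/
theorem Corr.oe {ψ : ℤ → ℝ} (h : Corr.{u} ψ) (m : ℕ) :
    Corr.{u} (fun n => (1 + ψ n) ^ m - (1 - ψ n) ^ m) ∧
      Corr.{u} (fun n => (1 + ψ n) ^ m + (1 - ψ n) ^ m - 2) := by
  induction m with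
  | zero =>
    constructor
    · simpa using Corr.zero.{u}
    · have e : (fun n => (1 + ψ n) ^ 0 + (1 - ψ n) ^ 0 - 2) = fun _ : ℤ => (0:ℝ) := by
        funext n; norm_num
      rw [e]; exact Corr.zero.{u}
  | succ m ih =>
    obtain ⟨i1, i2⟩ := ih
    constructor
    · have := (i1.add (h.smul (show (0:ℝ) ≤ 2 by norm_num))).add (h.mul i2)
      convert this using 1
      funext n; ring
    · have := i2.add (h.mul i1)
      convert this using 1
      funext n; ring

/-- **Combination.** Two normalised correlation sequences combine into one which is negative wherever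
one of them is. -/
theorem Corr.combine {ψ φ : ℤ → ℝ} (h : Corr.{u} ψ) (h' : Corr.{u} φ) (hψ : ∀ n, |ψ n| ≤ 1)
    (hφ : ∀ n, |φ n| ≤ 1) {ε : ℝ} (hε : 0 < ε) (hε1 : ε ≤ 1) :
    ∃ Ψ : ℤ → ℝ, Corr.{u} Ψ ∧ ∃ δ : ℝ, 0 < δ ∧ ∀ n, (ψ n ≤ -ε ∨ φ n ≤ -ε) → Ψ n ≤ -δ := by
  obtain ⟨m, hm⟩ : ∃ m : ℕ, (1 - ε) ^ m < ε / 8 :=
    exists_pow_lt_of_lt_one (by positivity) (by linarith)
  refine ⟨fun n => φ n * (1 + ψ n) ^ m + ε / 2 * ((1 + ψ n) ^ m - (1 - ψ n) ^ m),
    (h.pw h' m).add ((h.oe m).1.smul (by positivity)), ε / 4, by positivity, fun n hn => ?_⟩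
  have a := abs_le.1 (hψ n)
  have b := abs_le.1 (hφ n)
  have p1 : 0 ≤ (1 + ψ n) ^ m := pow_nonneg (by linarith) m
  have p2 : 0 ≤ (1 - ψ n) ^ m := pow_nonneg (by linarith) m
  show φ n * (1 + ψ n) ^ m + ε / 2 * ((1 + ψ n) ^ m - (1 - ψ n) ^ m) ≤ -(ε / 4)
  rcases hn with hn | hn
  · have q1 : (1 + ψ n) ^ m ≤ (1 - ε) ^ m := pow_le_pow_left₀ (by linarith) (by linarith) m
    have q2 : 1 ≤ (1 - ψ n) ^ m := one_le_pow₀ (by linarith)
    have q3 : φ n * (1 + ψ n) ^ m ≤ (1 + ψ n) ^ m := by nlinarith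
    nlinarith
  · have q : 1 ≤ (1 + ψ n) ^ m + (1 - ψ n) ^ m := by
      rcases le_total 0 (ψ n) with h0 | h0
      · have : 1 ≤ (1 + ψ n) ^ m := one_le_pow₀ (by linarith)
        linarith
      · have : 1 ≤ (1 - ψ n) ^ m := one_le_pow₀ (by linarith)
        linarith
    nlinarith

end Pool.Agent.TH311.Nice
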