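import Mathlib
import Pool.Agent.TH311.Nice.Corr

/-!
# From functions to sets by independent noise

A `[0,1]`-valued function `V` is replaced by the set `{(z,u) | u 0 < V z}` in the product with the
two-sided Bernoulli shift on i.i.d. uniform variables.
-/

set_option autoImplicit false
open MeasureTheory Filter Topology

namespace Pool.Agent.TH311.Nice

universe u

/-- uniform law -/
noncomputable def uni : Measure ℝ := volume.restrict (Set.Icc 0 1)

instance : IsProbabilityMeasure uni := ⟨by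
  unfold uni
  rw [Measure.restrict_apply MeasurableSet.univ, Set.univ_inter, Real.volume_Icc]; simp⟩

lemma uni_Iio {v : ℝ} (h0 : 0 ≤ v) (h1 : v ≤ 1) : uni (Set.Iio v) = ENNReal.ofReal v := by
  unfold uni
  rw [Measure.restrict_apply measurableSet_Iio]
  have : Set.Iio v ∩ Set.Icc 0 1 = Set.Ico 0 v := by
    ext x
    simp only [Set.mem_inter_iff, Set.mem_Iio, Set.mem_Icc, Set.mem_Ico]
    constructor
    · rintro ⟨h2, h3, h4⟩; exact ⟨h3, h2⟩
    · rintro ⟨h2, h3⟩; exact ⟨h3, h2, by linarith⟩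
  rw [this, Real.volume_Ico, sub_zero]

/-- two-sided iid uniform noise -/
noncomputable def noi : Measure (ℤ → ℝ) := Measure.infinitePi (fun _ : ℤ => uni)

instance : IsProbabilityMeasure noi := by unfold noi; infer_instance

/-- two-sided shift -/
def sh : Equiv.Perm (ℤ → ℝ) where
  toFun u := fun k => u (k + 1)
  invFun u := fun k => u (k - 1)
  left_inv u := by funext k; simp
  right_inv u := by funext k; simp

lemma sh_apply (u : ℤ → ℝ) (k : ℤ) : sh u k = u (k + 1) := rfl
lemma sh_symm_apply (u : ℤ → ℝ) (k : ℤ) : sh.symm u k = u (k - 1) := rfl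

lemma sh_meas : Measurable sh := measurable_pi_lambda _ fun _ => measurable_pi_apply _
lemma sh_symm_meas : Measurable sh.symm := measurable_pi_lambda _ fun _ => measurable_pi_apply _

lemma sh_pow (n : ℤ) (u : ℤ → ℝ) (k : ℤ) : (sh ^ n) u k = u (k + n) := by
  have h1 : ∀ (m : ℕ) (u : ℤ → ℝ) (k : ℤ), (sh ^ m) u k = u (k + m) := by
    intro m
    induction m with
    | zero => intro u k; simp
    | succ m ih =>
      intro u k
      rw [pow_succ', Equiv.Perm.mul_apply, sh_apply, ih]
      congr 1; push_cast; ring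
  have h2 : ∀ (m : ℕ) (u : ℤ → ℝ) (k : ℤ), (sh⁻¹ ^ m) u k = u (k - m) := by
    intro m
    induction m with
    | zero => intro u k; simp
    | succ m ih =>
      intro u k
      rw [pow_succ', Equiv.Perm.mul_apply]
      show (sh⁻¹ ^ m) u (k - 1) = _
      rw [ih]
      congr 1; push_cast; ring
  obtain ⟨m, rfl | rfl⟩ := n.eq_nat_or_neg
  · rw [zpow_natCast]; exact h1 m u k
  · rw [zpow_neg, zpow_natCast, ← inv_pow, h2 m u k, sub_eq_add_neg]

lemma sh_mp_aux (s : Finset ℤ) (t : ℤ → Set ℝ) (ht : ∀ i, MeasurableSet (t i)) :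
    (Measure.infinitePi (fun _ : ℤ => uni)) (sh ⁻¹' (Set.pi (s : Set ℤ) t)) = ∏ i ∈ s, uni (t i) := by
  have e : sh ⁻¹' (Set.pi (s : Set ℤ) t)
      = Set.pi ((s.map ⟨fun k : ℤ => k + 1, add_left_injective 1⟩ : Finset ℤ) : Set ℤ) (fun k => t (k - 1)) := by
    ext u
    simp only [Set.mem_preimage, Set.mem_pi, Finset.mem_coe, Finset.mem_map, Function.Embedding.coeFn_mk,
      sh_apply, forall_exists_index, and_imp, forall_apply_eq_imp_iff₂, add_sub_cancel_right]
  rw [e, Measure.infinitePi_pi _ (fun i _ => ht _), Finset.prod_map]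
  refine Finset.prod_congr rfl fun i _ => ?_
  show uni (t (i + 1 - 1)) = uni (t i)
  rw [add_sub_cancel_right]

lemma sh_mp : MeasurePreserving sh noi noi := by
  refine ⟨sh_meas, ?_⟩
  unfold noi
  apply Measure.eq_infinitePi
  intro s t ht
  rw [Measure.map_apply sh_meas (MeasurableSet.pi s.countable_toSet fun i _ => ht i)]
  exact sh_mp_aux s t ht

section
variable {Z : Type*} [MeasurableSpace Z] {P : Measure Z} [IsProbabilityMeasure P] {T : Equiv.Perm Z}

def BB (V : Z → ℝ) : Set (Z × (ℤ → ℝ)) := {p | p.2 0 < V p.1}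

lemma BB_meas {V : Z → ℝ} (hV : Measurable V) : MeasurableSet (BB V) := by
  unfold BB
  exact measurableSet_lt ((measurable_pi_apply 0).comp measurable_snd) (hV.comp measurable_fst)

lemma BB_measure {V : Z → ℝ} (hV : Measurable V) (h0 : ∀ z, 0 ≤ V z) (h1 : ∀ z, V z ≤ 1) :
    ((P.prod noi) (BB V)).toReal = ∫ z, V z ∂P := by
  rw [Measure.prod_apply (BB_meas hV)]
  have hs : ∀ z, noi (Prod.mk z ⁻¹' (BB V)) = ENNReal.ofReal (V z) := by
    intro z
    have e : Prod.mk z ⁻¹' (BB V) = Set.pi (({0} : Finset ℤ) : Set ℤ) (fun _ => Set.Iio (V z)) := by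
      ext u; simp [BB]
    rw [e]
    unfold noi
    rw [Measure.infinitePi_pi _ (fun i _ => measurableSet_Iio)]
    simp [uni_Iio (h0 z) (h1 z)]
  simp_rw [hs]
  rw [integral_eq_lintegral_of_nonneg_ae (Filter.Eventually.of_forall h0) hV.aestronglyMeasurable]

lemma BB_corr (hT1 : Measurable T) (hT2 : Measurable T.symm) (hT : MeasurePreserving T P P)
    {V : Z → ℝ} (hV : Measurable V) (h0 : ∀ z, 0 ≤ V z)
    (h1 : ∀ z, V z ≤ 1) (n : ℤ) (hn : n ≠ 0) :
    ((P.prod noi) (BB V ∩ (pp T sh ^ n) ⁻¹' (BB V))).toReal = ∫ z, V z * V ((T ^ n) z) ∂P := by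
  have hTn := mp_zpow hT1 hT2 hT n
  have hSn := mp_zpow sh_meas sh_symm_meas sh_mp n
  have hTm : Measurable (pp T sh ^ n) := by
    rw [pp_pow]
    exact (hTn.measurable.comp measurable_fst).prodMk (hSn.measurable.comp measurable_snd)
  have hVn : Measurable fun z => V ((T ^ n) z) := hV.comp hTn.measurable
  rw [Measure.prod_apply ((BB_meas hV).inter (hTm (BB_meas hV)))]
  have hs : ∀ z, noi (Prod.mk z ⁻¹' (BB V ∩ (pp T sh ^ n) ⁻¹' (BB V))) = ENNReal.ofReal (V z * V ((T ^ n) z)) := by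
    intro z
    have e : Prod.mk z ⁻¹' (BB V ∩ (pp T sh ^ n) ⁻¹' (BB V))
        = Set.pi (({0, n} : Finset ℤ) : Set ℤ) (fun i => if i = 0 then Set.Iio (V z) else Set.Iio (V ((T ^ n) z))) := by
      ext u
      rw [pp_pow]
      simp only [Set.mem_preimage, Set.mem_inter_iff, pp_apply, BB, Set.mem_setOf_eq, sh_pow, Set.mem_pi,
        Finset.coe_insert, Finset.coe_singleton, Set.mem_insert_iff, Set.mem_singleton_iff, forall_eq_or_imp,
        forall_eq, if_true, if_neg hn, Set.mem_Iio, zero_add]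
    rw [e]
    unfold noi
    rw [Measure.infinitePi_pi _ (fun i _ => by split_ifs <;> exact measurableSet_Iio)]
    rw [Finset.prod_insert (by simp [Ne.symm hn]), Finset.prod_singleton]
    simp only [if_true, if_neg hn]
    rw [uni_Iio (h0 z) (h1 z), uni_Iio (h0 _) (h1 _), ENNReal.ofReal_mul (h0 z)]
  simp_rw [hs]
  rw [integral_eq_lintegral_of_nonneg_ae (Filter.Eventually.of_forall fun z => mul_nonneg (h0 _) (h0 _))
    (hV.mul hVn).aestronglyMeasurable]

end

end Pool.Agent.TH311.Nice
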