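import Mathlib
import Pool.Agent.TH311.Nice.Noise

/-!
# The Ramsey property for sets of nice recurrence
-/

set_option autoImplicit false
open MeasureTheory Filter Topology

namespace Pool.Agent.TH311.Nice

universe u

/-- `C` is bad along `F`: some correlation sequence is eventually bounded away from `0` below on `C` -/
def Bad (F : Filter ℤ) (C : Set ℤ) : Prop :=
  ∃ ψ : ℤ → ℝ, Corr.{u} ψ ∧ ∃ ε : ℝ, 0 < ε ∧ ∀ᶠ n in F ⊓ 𝓟 C, ψ n ≤ -ε

theorem Bad.norm {F : Filter ℤ} {C : Set ℤ} (h : Bad.{u} F C) :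
    ∃ ε₀ : ℝ, 0 < ε₀ ∧ ε₀ ≤ 1 ∧ ∀ ε : ℝ, 0 < ε → ε ≤ ε₀ →
      ∃ ψ : ℤ → ℝ, Corr.{u} ψ ∧ (∀ n, |ψ n| ≤ 1) ∧ ∀ᶠ n in F ⊓ 𝓟 C, ψ n ≤ -ε := by
  obtain ⟨ψ, h1, ε, hε, h2⟩ := h
  obtain ⟨M, hM, hb⟩ := h1.bdd
  refine ⟨min 1 (ε / M), lt_min one_pos (by positivity), min_le_left _ _, fun η hη hle => ?_⟩
  refine ⟨fun n => M⁻¹ * ψ n, h1.smul (by positivity), fun n => ?_, ?_⟩
  · rw [abs_mul, abs_of_pos (inv_pos.2 hM)]
    calc M⁻¹ * |ψ n| ≤ M⁻¹ * M := by gcongr; exact hb n
      _ = 1 := inv_mul_cancel₀ hM.ne'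
  · filter_upwards [h2] with n hn
    have h3 : η ≤ ε / M := hle.trans (min_le_right _ _)
    have h4 : M⁻¹ * ψ n ≤ M⁻¹ * -ε := by gcongr
    have h5 : M⁻¹ * -ε = -(ε / M) := by rw [mul_neg, div_eq_inv_mul]
    linarith

theorem Bad.union {F : Filter ℤ} {C D : Set ℤ} (h : Bad.{u} F C) (h' : Bad.{u} F D) :
    Bad.{u} F (C ∪ D) := by
  obtain ⟨ε₁, p1, q1, r1⟩ := h.norm
  obtain ⟨ε₂, p2, q2, r2⟩ := h'.norm
  have hm : 0 < min ε₁ ε₂ := lt_min p1 p2
  obtain ⟨ψ, a1, a2, a3⟩ := r1 (min ε₁ ε₂) hm (min_le_left _ _)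
  obtain ⟨φ, b1, b2, b3⟩ := r2 (min ε₁ ε₂) hm (min_le_right _ _)
  obtain ⟨Ψ, c1, δ, c2, c3⟩ := a1.combine b1 a2 b2 hm ((min_le_left _ _).trans q1)
  refine ⟨Ψ, c1, δ, c2, ?_⟩
  rw [← sup_principal, inf_sup_left, eventually_sup]
  exact ⟨a3.mono fun n hn => c3 n (Or.inl hn), b3.mono fun n hn => c3 n (Or.inr hn)⟩

theorem Bad.empty (F : Filter ℤ) : Bad.{u} F ∅ :=
  ⟨_, Corr.zero.{u}, 1, one_pos, by simp⟩

theorem Bad.iUnion {F : Filter ℤ} {ι : Type*} [Finite ι] {C : ι → Set ℤ} (h : ∀ i, Bad.{u} F (C i)) :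
    Bad.{u} F (⋃ i, C i) := by
  classical
  have key : ∀ s : Finset ι, Bad.{u} F (⋃ i ∈ s, C i) := by
    intro s
    induction s using Finset.induction_on with
    | empty => simpa using Bad.empty.{u} F
    | insert a s _ ih =>
      rw [Finset.set_biUnion_insert]
      exact (h a).union ih
  cases nonempty_fintype ι
  simpa using key Finset.univ

/-- **From sets to correlation sequences.** -/
theorem bad_of_set {F : Filter ℤ} {C : Set ℤ} {X : Type u} [MeasurableSpace X] {μ : Measure X}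
    [IsProbabilityMeasure μ] {T : Equiv.Perm X} (h1 : Measurable T) (h2 : Measurable T.symm)
    (h : MeasurePreserving T μ μ) {A : Set X} (hA : MeasurableSet A)
    (hlt : limsup (fun n : ℤ => μ (A ∩ (T ^ n) '' A)) (F ⊓ 𝓟 C) < μ A ^ 2) : Bad.{u} F C := by
  obtain ⟨b, hb1, hb2⟩ := exists_between hlt
  have hev := eventually_lt_of_limsup_lt hb1
  have hAfin : μ A ^ 2 ≠ ⊤ := ENNReal.pow_ne_top (measure_ne_top μ A)
  have hbfin : b ≠ ⊤ := (hb2.trans_le le_top).ne
  let f : X → ℝ := fun x => A.indicator (fun _ => (1:ℝ)) x - (μ A).toReal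
  have hfm : Measurable f := (measurable_const.indicator hA).sub_const _
  have hind : ∀ x, |A.indicator (fun _ => (1:ℝ)) x| ≤ 1 := by
    intro x
    by_cases h : x ∈ A
    · simp [h]
    · simp [h]
  have hfb : ∀ x, |f x| ≤ 1 + |(μ A).toReal| := fun x => by
    refine (abs_sub _ _).trans ?_
    linarith [hind x]
  have ii : ∀ s : Set X, MeasurableSet s → Integrable (s.indicator (fun _ => (1:ℝ))) μ := fun s hs =>
    (integrable_const _).indicator hs
  have int_ind : ∀ s : Set X, MeasurableSet s → ∫ x, s.indicator (fun _ => (1:ℝ)) x ∂μ = (μ s).toReal := by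
    intro s hs
    rw [integral_indicator hs]; simp [measureReal_def]
  have hmean : ∫ x, f x ∂μ = 0 := by
    show ∫ x, (A.indicator (fun _ => (1:ℝ)) x - (μ A).toReal) ∂μ = 0
    rw [integral_sub (ii _ hA) (integrable_const _), int_ind _ hA]
    simp
  have hrn : ∀ n : ℤ, ∫ x, f x * f ((T ^ n) x) ∂μ = (μ (A ∩ (T ^ n) ⁻¹' A)).toReal - (μ A).toReal ^ 2 := by
    intro n
    have hTn := mp_zpow h1 h2 h n
    have hAn : MeasurableSet ((T ^ n) ⁻¹' A) := hTn.measurable hA
    have e : ∀ x, f x * f ((T ^ n) x) = (A ∩ (T ^ n) ⁻¹' A).indicator (fun _ => (1:ℝ)) x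
        - (μ A).toReal * A.indicator (fun _ => (1:ℝ)) x
        - (μ A).toReal * ((T ^ n) ⁻¹' A).indicator (fun _ => (1:ℝ)) x
        + (μ A).toReal ^ 2 := by
      intro x
      simp only [f]
      by_cases h1 : x ∈ A
      · by_cases h2 : (T ^ n) x ∈ A
        · rw [Set.indicator_of_mem h1, Set.indicator_of_mem h2,
            Set.indicator_of_mem (show x ∈ A ∩ (T ^ n) ⁻¹' A from ⟨h1, h2⟩),
            Set.indicator_of_mem (show x ∈ (T ^ n) ⁻¹' A from h2)]
          ring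
        · rw [Set.indicator_of_mem h1, Set.indicator_of_notMem h2,
            Set.indicator_of_notMem (show x ∉ A ∩ (T ^ n) ⁻¹' A from fun h => h2 h.2),
            Set.indicator_of_notMem (show x ∉ (T ^ n) ⁻¹' A from h2)]
          ring
      · by_cases h2 : (T ^ n) x ∈ A
        · rw [Set.indicator_of_notMem h1, Set.indicator_of_mem h2,
            Set.indicator_of_notMem (show x ∉ A ∩ (T ^ n) ⁻¹' A from fun h => h1 h.1),
            Set.indicator_of_mem (show x ∈ (T ^ n) ⁻¹' A from h2)]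
          ring
        · rw [Set.indicator_of_notMem h1, Set.indicator_of_notMem h2,
            Set.indicator_of_notMem (show x ∉ A ∩ (T ^ n) ⁻¹' A from fun h => h1 h.1),
            Set.indicator_of_notMem (show x ∉ (T ^ n) ⁻¹' A from h2)]
          ring
    simp_rw [e]
    have i1 := ii _ (hA.inter hAn)
    have i2 := (ii _ hA).const_mul (μ A).toReal
    have i3 := (ii _ hAn).const_mul (μ A).toReal
    have i12 : Integrable (fun x => (A ∩ (T ^ n) ⁻¹' A).indicator (fun _ => (1:ℝ)) x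
      - (μ A).toReal * A.indicator (fun _ => (1:ℝ)) x) μ := i1.sub i2
    have i123 : Integrable (fun x => (A ∩ (T ^ n) ⁻¹' A).indicator (fun _ => (1:ℝ)) x
      - (μ A).toReal * A.indicator (fun _ => (1:ℝ)) x
      - (μ A).toReal * ((T ^ n) ⁻¹' A).indicator (fun _ => (1:ℝ)) x) μ := i12.sub i3
    rw [integral_add i123 (integrable_const _), integral_sub i12 i3, integral_sub i1 i2,
      integral_const_mul, integral_const_mul, int_ind _ (hA.inter hAn), int_ind _ hA, int_ind _ hAn]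
    have e3 : μ ((T ^ n) ⁻¹' A) = μ A := hTn.measure_preimage hA.nullMeasurableSet
    rw [e3]
    simp
    ring
  refine ⟨_, ⟨X, _, μ, inferInstance, T, f, h1, h2, h, hfm, ⟨_, hfb⟩, hmean, hrn⟩,
    (μ A ^ 2).toReal - b.toReal, ?_, ?_⟩
  · have := (ENNReal.toReal_lt_toReal hbfin hAfin).2 hb2
    linarith
  · filter_upwards [hev] with n hn
    have hTn := mp_zpow h1 h2 h n
    have e : μ (A ∩ (T ^ n) ⁻¹' A) = μ (A ∩ (T ^ n) '' A) := by
      have him : (T ^ n) '' A = (T ^ (-n)) ⁻¹' A := by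
        rw [zpow_neg]
        exact (T ^ n).image_eq_preimage_symm A
      have hmI : MeasurableSet (A ∩ (T ^ n) '' A) := by
        rw [him]
        exact hA.inter ((mp_zpow h1 h2 h (-n)).measurable hA)
      rw [← hTn.measure_preimage hmI.nullMeasurableSet, Set.preimage_inter,
        Set.preimage_image_eq _ (T ^ n).injective, Set.inter_comm]
    rw [e]
    have h3 : (μ (A ∩ (T ^ n) '' A)).toReal ≤ b.toReal := ENNReal.toReal_mono hbfin hn.le
    rw [ENNReal.toReal_pow]
    linarith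

/-- **From correlation sequences to sets.** -/
theorem set_of_bad {F : Filter ℤ} (hF : F ≤ cofinite) {C : Set ℤ} (h : Bad.{u} F C) :
    ∃ (X : Type u) (_ : MeasurableSpace X) (μ : Measure X) (_ : IsProbabilityMeasure μ)
      (T : Equiv.Perm X) (A : Set X), Measurable T ∧ Measurable T.symm ∧ MeasurePreserving T μ μ ∧
      MeasurableSet A ∧ limsup (fun n : ℤ => μ (A ∩ (T ^ n) '' A)) (F ⊓ 𝓟 C) < μ A ^ 2 := by
  obtain ⟨ψ, ⟨X, _, μ, _, T, f, h1, h2, h3, h4, ⟨K', hK'⟩, h6, h7⟩, ε, hε, hev⟩ := h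
  obtain ⟨K, hK0, hK⟩ : ∃ K : ℝ, 0 < K ∧ ∀ x, |f x| ≤ K :=
    ⟨|K'| + 1, by positivity, fun x => by have := hK' x; have := le_abs_self K'; linarith⟩
  let V : X → ℝ := fun x => 1 / 2 + f x / (2 * K)
  have hVm : Measurable V := (h4.div_const _).const_add _
  have hq : ∀ x, |f x / (2 * K)| ≤ 1 / 2 := by
    intro x
    rw [abs_div, abs_of_pos (show (0:ℝ) < 2 * K by positivity), div_le_iff₀ (by positivity)]
    have := hK x
    linarith
  have hV0 : ∀ x, 0 ≤ V x := fun x => by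
    have := (abs_le.1 (hq x)).1
    show 0 ≤ 1 / 2 + f x / (2 * K)
    linarith
  have hV1 : ∀ x, V x ≤ 1 := fun x => by
    have := (abs_le.1 (hq x)).2
    show 1 / 2 + f x / (2 * K) ≤ 1
    linarith
  have hfi : Integrable f μ := int_bdd h4 hK
  have hVint : ∫ x, V x ∂μ = 1 / 2 := by
    show ∫ x, (1 / 2 + f x / (2 * K)) ∂μ = _
    rw [integral_add (integrable_const _) (hfi.div_const _), integral_div (2 * K) (fun x => f x), h6]
    simp
  have hVV : ∀ n : ℤ, ∫ x, V x * V ((T ^ n) x) ∂μ = 1 / 4 + ψ n / (4 * K ^ 2) := by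
    intro n
    have hTn := mp_zpow h1 h2 h3 n
    have hfn : Measurable fun x => f ((T ^ n) x) := h4.comp hTn.measurable
    have hfni : Integrable (fun x => f ((T ^ n) x)) μ := int_bdd hfn (fun x => hK _)
    have hffi : Integrable (fun x => f x * f ((T ^ n) x)) μ := int_corr h4 hfn hK (fun x => hK _)
    have e : ∀ x, V x * V ((T ^ n) x) = (1 / 4 + (1 / (4 * K)) * f x)
        + ((1 / (4 * K)) * f ((T ^ n) x) + (1 / (4 * K ^ 2)) * (f x * f ((T ^ n) x))) := by
      intro x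
      show (1 / 2 + f x / (2 * K)) * (1 / 2 + f ((T ^ n) x) / (2 * K)) = _
      field_simp
      ring
    have hm : ∫ x, f ((T ^ n) x) ∂μ = 0 := by
      rw [← h6]
      have hmap := integral_map (μ := μ) hTn.measurable.aemeasurable (f := f) (by
        rw [hTn.map_eq]; exact h4.aestronglyMeasurable)
      rw [hTn.map_eq] at hmap
      exact hmap.symm
    simp_rw [e]
    have a1 : Integrable (fun x => 1 / 4 + (1 / (4 * K)) * f x) μ := (integrable_const _).add (hfi.const_mul _)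
    have a2 : Integrable (fun x => (1 / (4 * K)) * f ((T ^ n) x)
      + (1 / (4 * K ^ 2)) * (f x * f ((T ^ n) x))) μ := (hfni.const_mul _).add (hffi.const_mul _)
    rw [integral_add a1 a2, integral_add (integrable_const _) (hfi.const_mul _),
      integral_add (hfni.const_mul _) (hffi.const_mul _), integral_const_mul, integral_const_mul,
      integral_const_mul, hm, h6, h7 n]
    simp
    ring
  have hpm : Measurable (pp T sh) := (h1.comp measurable_fst).prodMk (sh_meas.comp measurable_snd)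
  have hpm' : Measurable (pp T sh).symm := (h2.comp measurable_fst).prodMk (sh_symm_meas.comp measurable_snd)
  have hpp : MeasurePreserving (pp T sh) (μ.prod noi) (μ.prod noi) := h3.prod sh_mp
  have hB1 : (μ.prod noi) (BB V) = ENNReal.ofReal (1 / 2) := by
    rw [← ENNReal.ofReal_toReal (measure_ne_top (μ.prod noi) (BB V)), BB_measure hVm hV0 hV1, hVint]
  refine ⟨X × (ℤ → ℝ), inferInstance, μ.prod noi, inferInstance, pp T sh, BB V, hpm, hpm', hpp,
    BB_meas hVm, ?_⟩
  have h0 : ∀ᶠ n in F ⊓ 𝓟 C, n ≠ 0 := by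
    have : ∀ᶠ n : ℤ in cofinite, n ≠ 0 := by
      rw [eventually_cofinite]; simp
    exact (this.filter_mono hF).filter_mono inf_le_left
  have hle : limsup (fun n : ℤ => (μ.prod noi) (BB V ∩ (pp T sh ^ n) '' (BB V))) (F ⊓ 𝓟 C)
      ≤ ENNReal.ofReal (1 / 4 - ε / (4 * K ^ 2)) := by
    refine limsup_le_of_le (by isBoundedDefault) ?_
    filter_upwards [h0, hev] with n hn hψ
    have hTn := mp_zpow hpm hpm' hpp n
    have him : (pp T sh ^ n) '' (BB V) = (pp T sh ^ (-n)) ⁻¹' (BB V) := by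
      rw [zpow_neg]
      exact (pp T sh ^ n).image_eq_preimage_symm (BB V)
    have hmI : MeasurableSet (BB V ∩ (pp T sh ^ n) '' (BB V)) := by
      rw [him]
      exact (BB_meas hVm).inter ((mp_zpow hpm hpm' hpp (-n)).measurable (BB_meas hVm))
    have e : (μ.prod noi) (BB V ∩ (pp T sh ^ n) '' (BB V))
        = (μ.prod noi) (BB V ∩ (pp T sh ^ n) ⁻¹' (BB V)) := by
      rw [← hTn.measure_preimage hmI.nullMeasurableSet, Set.preimage_inter,
        Set.preimage_image_eq _ (pp T sh ^ n).injective, Set.inter_comm]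
    rw [e, ← ENNReal.ofReal_toReal (measure_ne_top (μ.prod noi) _),
      BB_corr h1 h2 h3 hVm hV0 hV1 n hn, hVV n]
    apply ENNReal.ofReal_le_ofReal
    have : ψ n / (4 * K ^ 2) ≤ -ε / (4 * K ^ 2) := by gcongr
    rw [neg_div] at this
    linarith
  refine hle.trans_lt ?_
  rw [hB1, ← ENNReal.ofReal_pow (by norm_num), ENNReal.ofReal_lt_ofReal_iff (by norm_num)]
  have : 0 < ε / (4 * K ^ 2) := by positivity
  norm_num
  exact this

/-- `R` is a set of nice recurrence along the filter `F` on `ℤ`: in every invertible probability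
preserving system, `limsup μ(A ∩ TⁿA) ≥ μ(A)²`, the limit superior being taken as `n → F`, `n ∈ R`. -/
def NiceAlong (F : Filter ℤ) (R : Set ℤ) : Prop :=
  ∀ (X : Type u) [MeasurableSpace X] (μ : Measure X) [IsProbabilityMeasure μ] (T : Equiv.Perm X),
    Measurable T → Measurable T.symm → MeasurePreserving T μ μ →
    ∀ A : Set X, MeasurableSet A →
      μ A ^ 2 ≤ limsup (fun n : ℤ => μ (A ∩ (T ^ n) '' A)) (F ⊓ 𝓟 R)

theorem not_niceAlong_iff {F : Filter ℤ} (hF : F ≤ cofinite) (C : Set ℤ) :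
    ¬ NiceAlong.{u} F C ↔ Bad.{u} F C := by
  constructor
  · intro h
    unfold NiceAlong at h
    push Not at h
    obtain ⟨X, _, μ, _, T, h1, h2, h3, A, hA, hlt⟩ := h
    exact bad_of_set h1 h2 h3 hA hlt
  · intro h hn
    obtain ⟨X, _, μ, _, T, A, h1, h2, h3, hA, hlt⟩ := set_of_bad hF h
    exact absurd (hn X μ T h1 h2 h3 A hA) (not_le.2 hlt)

/-- **Ramsey property.** -/
theorem ramsey {F : Filter ℤ} (hF : F ≤ cofinite) {ι : Type*} [Finite ι] (C : ι → Set ℤ)
    (h : NiceAlong.{u} F (⋃ i, C i)) : ∃ i, NiceAlong.{u} F (C i) := by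
  by_contra hcon
  push Not at hcon
  exact (not_niceAlong_iff hF _).2 (Bad.iUnion fun i => (not_niceAlong_iff hF _).1 (hcon i)) h

end Pool.Agent.TH311.Nice
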